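import Pool.Agent.Helper43.LS.Zones

set_option autoImplicit false

namespace Pool.LS

private theorem mv_of_mvF {k : ℕ} {e f : Mon} (h : mvF k e = some f) : Mv k e f := by
  unfold mvF at h
  split at h
  · split_ifs at h with h1
    simp only [Option.some.injEq] at h
    subst h
    exact Or.inl ⟨rfl, by dsimp only; omega, rfl, rfl, rfl, rfl⟩
  · split_ifs at h with h1
    simp only [Option.some.injEq] at h
    subst h
    exact Or.inr (Or.inl ⟨rfl, rfl, by dsimp only; omega, rfl, rfl, rfl⟩)
  · split_ifs at h with h1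
    simp only [Option.some.injEq] at h
    subst h
    exact Or.inr (Or.inr (Or.inl ⟨rfl, rfl, rfl, by dsimp only; omega, rfl, rfl⟩))
  · split_ifs at h with h1
    simp only [Option.some.injEq] at h
    subst h
    exact Or.inr (Or.inr (Or.inr ⟨rfl, rfl, rfl, rfl, by dsimp only; omega, rfl⟩))
  · simp at h

private theorem mvB_of_mv {k : ℕ} {e f : Mon} (h : Mv k e f) : mvB k f = some e := by
  obtain ⟨a1, a2, a3, a4, a5⟩ := e
  obtain ⟨b1, b2, b3, b4, b5⟩ := f
  unfold Mv at h
  dsimp only at h
  rcases h with ⟨rfl, h1, h2, h3, h4, h5⟩ | ⟨rfl, h1, h2, h3, h4, h5⟩ |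
    ⟨rfl, h1, h2, h3, h4, h5⟩ | ⟨rfl, h1, h2, h3, h4, h5⟩
  all_goals
    simp only [mvB]
    rw [if_pos (by omega)]
    simp only [Option.some.injEq, Mon.mk.injEq]
    refine ⟨?_, ?_, ?_, ?_, ?_⟩ <;> omega

private theorem mv_of_mvB {k : ℕ} {e f : Mon} (h : mvB k f = some e) : Mv k e f := by
  unfold mvB at h
  split at h
  · split_ifs at h with h1
    simp only [Option.some.injEq] at h
    subst h
    exact Or.inl ⟨rfl, rfl, by dsimp only; omega, rfl, rfl, rfl⟩
  · split_ifs at h with h1
    simp only [Option.some.injEq] at h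
    subst h
    exact Or.inr (Or.inl ⟨rfl, rfl, rfl, by dsimp only; omega, rfl, rfl⟩)
  · split_ifs at h with h1
    simp only [Option.some.injEq] at h
    subst h
    exact Or.inr (Or.inr (Or.inl ⟨rfl, rfl, rfl, rfl, by dsimp only; omega, rfl⟩))
  · split_ifs at h with h1
    simp only [Option.some.injEq] at h
    subst h
    exact Or.inr (Or.inr (Or.inr ⟨rfl, rfl, rfl, rfl, rfl, by dsimp only; omega⟩))
  · simp at h

private theorem deg_mv {k : ℕ} {e f : Mon} (h : Mv k e f) : deg f = deg e := by
  unfold Mv at h
  unfold deg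
  omega

private theorem mv_ne_zero {k : ℕ} {e f : Mon} (h : Mv k e f) : k ≠ 0 := by
  unfold Mv at h
  omega

private theorem d2_eq (e : Mon) : d2 e = (up e : ℤ) - (dn e : ℤ) := by
  unfold d2 up dn
  push_cast
  ring

private theorem red_of_x1 {t : Mon} (h : Red 2 2 (x1 t)) : Red 2 2 t := by
  unfold Red x1 at *
  dsimp only at h
  omega

private theorem red_of_x34 {t : Mon} (h : Red 2 2 (x34 t)) : Red 2 2 t := by
  unfold Red x34 at *
  dsimp only at h
  omega

/-- The tops. -/
private theorem top_iff {lab : Mon → LLab} {e : Mon} (hr : inRange (lab e) e) :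
    Top (toLab lab) e ↔ (isTopA (lab e) e ∨ lab e = .B 4) := by
  have hd := d2_eq e
  unfold Top toLab
  cases hl : lab e with
  | A o =>
    simp only [isTopA, Lab.A.injEq, reduceCtorEq, or_false, false_or]
    constructor
    · rintro ⟨o', h1, h2⟩
      subst h1
      omega
    · intro h1
      exact ⟨o, rfl, by omega⟩
  | L c =>
    rw [hl] at hr
    simp only [inRange] at hr
    obtain ⟨hr1, hr2⟩ := hr
    simp only [isTopA, Lab.A.injEq, reduceCtorEq, or_false, false_or]
    constructor
    · rintro ⟨o', h1, h2⟩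
      subst h1
      omega
    · intro h1
      exact ⟨_, rfl, by omega⟩
  | B j =>
    simp only [isTopA, Lab.B.injEq, LLab.B.injEq, reduceCtorEq, false_and, exists_false,
      or_false, false_or]
  | C j =>
    simp only [isTopA, reduceCtorEq, false_and, exists_false, or_false]

/-- The bottoms. -/
private theorem bot_iff {lab : Mon → LLab} {e : Mon} (hr : inRange (lab e) e) :
    Bot (toLab lab) e ↔ (isBotA (lab e) e ∨ lab e = .C 0) := by
  have hd := d2_eq e
  unfold Bot toLab
  cases hl : lab e with
  | A o =>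
    simp only [isBotA, Lab.A.injEq, reduceCtorEq, or_false, false_or]
    constructor
    · rintro ⟨o', h1, h2⟩
      subst h1
      omega
    · intro h1
      exact ⟨o, rfl, by omega⟩
  | L c =>
    rw [hl] at hr
    simp only [inRange] at hr
    obtain ⟨hr1, hr2⟩ := hr
    simp only [isBotA, Lab.A.injEq, reduceCtorEq, or_false, false_or]
    constructor
    · rintro ⟨o', h1, h2⟩
      subst h1
      omega
    · intro h1
      exact ⟨_, rfl, by omega⟩
  | B j =>
    simp only [isBotA, reduceCtorEq, false_and, exists_false, or_false]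
  | C j =>
    simp only [isBotA, Lab.C.injEq, LLab.C.injEq, reduceCtorEq, false_and, exists_false,
      or_false, false_or]

private theorem toB_iff {lab : Mon → LLab} {e : Mon} {j : ℕ} :
    toLab lab e = .B j ↔ lab e = .B j := by
  unfold toLab
  cases hl : lab e <;> simp

private theorem toC_iff {lab : Mon → LLab} {e : Mon} {j : ℕ} :
    toLab lab e = .C j ↔ lab e = .C j := by
  unfold toLab
  cases hl : lab e <;> simp

private theorem toLab_next {lab : Mon → LLab} {e f : Mon} (hd : deg f = deg e)
    (h : lab f = (lab e).next) : toLab lab f = (toLab lab e).next := by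
  unfold toLab
  rw [h, hd]
  cases hl : lab e <;> simp [LLab.next, Lab.next]

private theorem pred_of_mv {mo : Mon → ℕ} {e f : Mon} (he : Red 2 2 e) (h : Mv (mo e) e f) :
    Pred mo (mo e) f :=
  ⟨e, mvB_of_mv h, he, rfl⟩

private theorem start_iff {lab : Mon → LLab} {f : Mon} (hr : inRange (lab f) f) :
    (Bot (toLab lab) f ∨ toLab lab f = .B 0) ↔
      (isBotA (lab f) f ∨ lab f = .B 0 ∨ lab f = .C 0) := by
  rw [bot_iff hr, toB_iff]
  tauto

theorem good_of_loc (lab : Mon → LLab) (mo : Mon → ℕ) (h : ∀ e, Red 2 2 e → Loc lab mo e) :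
    Good 2 2 (toLab lab) mo where
  step := by
    intro e he hm
    obtain ⟨f, hf, hR, hl, -⟩ := (h e he).step hm
    have hM := mv_of_mvF hf
    exact ⟨f, hR, hM, toLab_next (deg_mv hM) hl⟩
  stop := by
    intro e he
    have hL := h e he
    rw [top_iff hL.range, toC_iff]
    constructor
    · intro hm
      have := hL.stop hm
      tauto
    · intro hx
      by_contra hm
      obtain ⟨f, -, -, -, h1, h2, h3⟩ := hL.step hm
      tauto
  inj := by
    intro e e' f he he' hf hm hm' hM hM'
    have hk := (h f hf).predU _ _ (pred_of_mv he hM) (pred_of_mv he' hM')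
    have h1 := mvB_of_mv hM
    have h2 := mvB_of_mv hM'
    rw [hk, h2] at h1
    simp only [Option.some.injEq] at h1
    exact h1.symm
  start := by
    intro f hf
    have hL := h f hf
    rw [start_iff hL.range]
    constructor
    · rintro ⟨e, he, hm, hM⟩ hs
      exact hL.start hs _ (pred_of_mv he hM)
    · intro hs
      obtain ⟨k, g, hg, hR, hk⟩ := hL.pred hs
      have hM := mv_of_mvB hg
      refine ⟨g, hR, ?_, ?_⟩
      · rw [hk]
        exact mv_ne_zero hM
      · rw [hk]
        exact hM
  top := by
    intro t ht hT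
    have hL := h t ht
    rw [top_iff hL.range] at hT
    rw [toB_iff]
    exact hL.top hT
  topOf := by
    intro e he hB
    rw [toB_iff] at hB
    obtain ⟨t, rfl, hT⟩ := (h e he).topOf hB
    refine ⟨t, rfl, ?_⟩
    rw [top_iff (h t (red_of_x1 he)).range]
    exact hT
  bot := by
    intro u hu hB
    have hL := h u hu
    rw [bot_iff hL.range] at hB
    rw [toC_iff]
    exact hL.bot hB
  botOf := by
    intro e he hC
    rw [toC_iff] at hC
    obtain ⟨u, rfl, hU⟩ := (h e he).botOf hC
    refine ⟨u, rfl, ?_⟩
    rw [bot_iff (h u (red_of_x34 he)).range]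
    exact hU
  boundB := by
    intro e j he hB
    rw [toB_iff] at hB
    have hr := (h e he).range
    rw [hB] at hr
    exact hr
  boundC := by
    intro e j he hC
    rw [toC_iff] at hC
    have hr := (h e he).range
    rw [hC] at hr
    exact hr

end Pool.LS
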